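import Pool.Agent.W155.CQ.MAXF
import Pool.Agent.W589.CQ.BVB
import Pool.Agent.W356.CQ.ARC
import Pool.Agent.W923.CQ.BRANCH
import Pool.Agent.W377.CQ.ZERO
import Pool.Agent.W753.CQ.GOODL
import Pool.Agent.W701.CQ.Fatou
import Pool.Agent.W856.CQ.Potw
import Pool.Agent.W414.CQ.LIPR
import Pool.Agent.W828.CQ.Hess
import Pool.Agent.W391.CQ.Chn
import Pool.Agent.W577.CQ.RN
import Pool.Agent.W446.CQ.STRIP
import Pool.Agent.W74.CQ.Pull
import Pool.Agent.W486.CQ.LOCAL
import Pool.Agent.W428.CQ.KAP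
import Pool.Agent.W196.CQ.MONO
import Pool.Agent.W885.CQ.QC
import Pool.Agent.W409.CQ.EV
import Pool.Agent.W160.CQ.SEP
import Pool.Agent.W347.CQ.GERM
import Pool.Agent.W461.CQ.Dir
import Pool.Agent.W271.CQ.Curve
import Pool.Agent.W418.CQ.Nbr
import Pool.Agent.W563.CQ.OPEN
import Pool.Agent.W778.CQ.DIFC
import Pool.Agent.W356.CQ.LIM0
import Pool.Agent.W52.CQ.ARCV
import Pool.Agent.W400.CQ.ARCG
import Pool.Agent.W32.CQ.GenG
import Pool.Agent.W368.CQ.LOW
import Pool.Agent.W605.CQ.T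
import Pool.Agent.W782.CQ.RAYSEP
import Pool.Agent.W392.CQ.RayIdx
import Pool.Agent.W103.CQ.AEAM
import Pool.Agent.W915.CQ.AVG
import Pool.Agent.W358.CQ.GLUE
import Pool.Agent.W999.CQ.Scx
import Pool.Agent.W696.CQ.Abs
import Pool.Agent.W496.CQ.ALG
import Pool.Agent.W637.CQ.REL
import Pool.Agent.W917.CQ.POT
import Pool.Agent.W748.CQ.PER
import Pool.Agent.W800.CQ.PUIS
import Pool.Agent.W551.CQ.SUP1
import Pool.Agent.W101.CQ.SUP2
import Pool.Agent.W369.CQ.SCOMP
import Pool.Agent.W304.CQ.AEP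
import Pool.Agent.W641.CQ.AVS
import Pool.Agent.W85.CQ.Red
import Pool.Agent.W481.CQ.LINK
import Pool.Agent.W177.CQ.FINAL
import Pool.Agent.W500.CS.Asm

set_option autoImplicit false

open MeasureTheory Polynomial Metric Set Filter Topology

/-! # MP_46692b_an, Q2: the support of a positive measure with algebraic Cauchy transform is a
finite union of compact analytic arcs and isolated points. -/

namespace Pool.Agent.Results.MP_46692b_an.SupportArcs

/-- A compact analytic arc in the plane: the image of `[0, 1]` under a map which is real-analytic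
and injective on an open interval containing `[0, 1]`. -/
def IsArc (A : Set ℂ) : Prop :=
  ∃ (f : ℝ → ℂ) (a b : ℝ), a < 0 ∧ 1 < b ∧ AnalyticOnNhd ℝ f (Ioo a b) ∧ InjOn f (Ioo a b) ∧
    A = f '' Icc 0 1

/-- Let `μ` be a finite Borel measure on `ℂ` with compact support whose Cauchy transform satisfies
`P (z, C_μ (z)) = 0` for almost every `z`, with `P` a nonzero polynomial. Then the support of `μ`
is the union of finitely many compact analytic arcs and of a finite set of isolated points. -/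
theorem result (μ : Measure ℂ) [IsFiniteMeasure μ]
    (hc : IsCompact μ.support) (P : ℂ[X][X]) (hP : P ≠ 0)
    (hz : ∀ᵐ z : ℂ, P.evalEval z (∫ ζ, (z - ζ)⁻¹ ∂μ) = 0) :
    ∃ (n : ℕ) (A : Fin n → Set ℂ) (F : Set ℂ), (∀ i, IsArc (A i)) ∧ F.Finite ∧
      (∀ x ∈ F, ∃ ε > 0, μ.support ∩ ball x ε = {x}) ∧ μ.support = (⋃ i, A i) ∪ F := by
  have hABS := Pool.Agent.W696.CQ.main
  have hMONO := Pool.Agent.W196.CQ.main
  have hDIR := Pool.Agent.W461.CQ.main
  have hNBR := Pool.Agent.W418.CQ.Nbr.main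
  have hSEP := Pool.Agent.W160.CQ.SEP.main
  have hZERO := Pool.Agent.W377.CQ.main
  have hKAP := Pool.Agent.W428.CQ.KAP.main
  have hGERM := Pool.Agent.W347.CQ.main
  have hGENG := Pool.Agent.W32.CQ.GenG.main
  have hCURVE := Pool.Agent.W271.CQ.main hDIR
  have hQC := Pool.Agent.W885.CQ.QC.main hMONO
  have hEV := Pool.Agent.W409.CQ.EV.main hMONO
  have hOPEN := Pool.Agent.W563.CQ.OPEN.main hNBR
  have hDIFC := Pool.Agent.W778.CQ.DIFC.main hNBR
  have hLIM0 := Pool.Agent.W356.CQ.LIM0.main hDIR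
  have hARCV := Pool.Agent.W52.CQ.ARCV.main hCURVE hEV hSEP
  have hARCG := Pool.Agent.W400.CQ.ARCG.main hARCV hSEP hDIFC
  have hLOW := Pool.Agent.W368.CQ.LOW.main hQC hCURVE
  have hMAXF := Pool.Agent.W155.CQ.MAXF.main hQC hCURVE hKAP hZERO hARCV hARCG hGENG hGERM hLOW
  have hSTRIP := Pool.Agent.W446.CQ.STRIP.main hMAXF hZERO hGERM
  have hT := Pool.Agent.W605.CQ.T.main hSTRIP
  have hRAYSEP := Pool.Agent.W782.CQ.main
  have hRAYIDX := Pool.Agent.W392.CQ.RayIdx.main hRAYSEP hCURVE hEV hDIFC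
  have hFATOU := Pool.Agent.W701.CQ.Fatou.main
  have hAEAM := Pool.Agent.W103.CQ.AEAM.main
  have hGOODL := Pool.Agent.W753.CQ.GOODL.main hRAYIDX hFATOU hAEAM hKAP hMONO hCURVE
  have hBVB := Pool.Agent.W589.CQ.main
  have hRN := Pool.Agent.W577.CQ.main hABS
  have hCHN := Pool.Agent.W391.CQ.Chn.main hABS
  have hALG := Pool.Agent.W496.CQ.ALG.main
  have hREL := Pool.Agent.W637.CQ.REL.main hABS
  have hHESS := Pool.Agent.W828.CQ.main hBVB hRN hCHN hALG hREL
  have hPOTW := Pool.Agent.W856.CQ.Potw.main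
  have hLIPR := Pool.Agent.W414.CQ.main
  have hGLUE := Pool.Agent.W358.CQ.GLUE.main
  have hSCX := W999.CQ.main
  have hPOT := Pool.Agent.W917.CQ.POT.main hPOTW hLIPR hGLUE hSCX hHESS
  have hBRANCH := Pool.Agent.W923.CQ.BRANCH.main
  have hPER := Pool.Agent.W748.CQ.PER.main hBRANCH
  have hPUIS := Pool.Agent.W800.CQPUIS.main hPER
  have hSCOMP := Pool.Agent.W369.CQ.SCOMP.main
  have hAEP := Pool.Agent.W304.CQ.AEP.main
  have hPULL := Pool.Agent.W74.CQ.Pull.main hPUIS hPOT hSCOMP hAEP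
  have hAVG := Pool.Agent.W915.CQ.AVG.main
  have hAVS := Pool.Agent.W641.CQ.main
  have hRED := Pool.Agent.W85.CQ.Red.main hLIM0
  have hSUP1 := Pool.Agent.W551.CQ.SUP1.main
  have hSUP2 := Pool.Agent.W101.CQ.SUP2.main
  have hLINK := Pool.Agent.W481.CQ.LINK.main hOPEN hNBR hSUP1 hSUP2
  have hARC := Pool.Agent.W356.CQ.ARC.main
  have hLOCAL := Pool.Agent.W486.CQ.main hPULL hGOODL hAVG hAVS hRED hT hLINK hARC
  have hFINAL := Pool.Agent.W177.CQ.FINAL.main hLOCAL
  exact Pool.Agent.W500.CS.final_isolated hFINAL μ hc P hP hz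

end Pool.Agent.Results.MP_46692b_an.SupportArcs
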